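import Mathlib

/-!
Tight closure, weak F-regularity and F-regularity, as in the problem file.
-/

namespace Pool.Agent.MP_961ca8_al.H18

/-- The Frobenius power `I^[q]`: the ideal generated by the `q`-th powers of the elements of `I`. -/
def frobPow {R : Type} [CommRing R] (I : Ideal R) (q : ℕ) : Ideal R :=
  Ideal.span ((fun x => x ^ q) '' (I : Set R))

/-- The tight closure `I^*` in characteristic `p`: the set of `f` for which some `c` lying in no
minimal prime satisfies `c f^q ∈ I^[q]` for all large `q = p^e`. -/
def tightClosure {R : Type} [CommRing R] (p : ℕ) (I : Ideal R) : Set R :=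
  {f | ∃ c : R, (∀ P ∈ minimalPrimes R, c ∉ P) ∧
    ∃ e₀ : ℕ, ∀ e : ℕ, e₀ ≤ e → c * f ^ p ^ e ∈ frobPow I (p ^ e)}

/-- Every ideal is tightly closed. -/
def WeaklyFRegular (p : ℕ) (R : Type) [CommRing R] : Prop :=
  ∀ I : Ideal R, tightClosure p I = (I : Set R)

/-- Every localization at a multiplicative subset is weakly F-regular. -/
def FRegular (p : ℕ) (R : Type) [CommRing R] : Prop :=
  ∀ W : Submonoid R, WeaklyFRegular p (Localization W)

end Pool.Agent.MP_961ca8_al.H18
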