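import Pool.Agent.MP_961ca8_al.H18.Tr

/-!
Gluing an approximate Frobenius-linear map on `TT` from maps on the components.
-/

namespace Pool.Agent.MP_961ca8_al.H18

open MvPolynomial

variable {D : Type} [CommRing D]

noncomputable def topU (t : Pm D) : Polynomial (BB D) := t.map Polynomial.constantCoeff

noncomputable def io0 (f : Polynomial (BB D)) : Pm D := f.map Polynomial.C

noncomputable def del (μ : Fin 3 → D) (t : Pm D) : Polynomial (BB D) :=
  topU t - (t.coeff 0).map (psi μ)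

theorem coeff_topU (t : Pm D) (k : ℕ) : (topU t).coeff k = (t.coeff k).coeff 0 := by
  rw [topU, Polynomial.coeff_map, Polynomial.constantCoeff_apply]

theorem coeff_io0 (f : Polynomial (BB D)) (k : ℕ) :
    (io0 f).coeff k = Polynomial.C (f.coeff k) := by
  rw [io0, Polynomial.coeff_map]

theorem topU_io0 (f : Polynomial (BB D)) : topU (io0 f) = f := by
  ext1 k
  rw [coeff_topU, coeff_io0, Polynomial.coeff_C_zero]

theorem coeff_del (μ : Fin 3 → D) (t : Pm D) (k : ℕ) :
    (del μ t).coeff k = (t.coeff k).coeff 0 - psi μ ((t.coeff 0).coeff k) := by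
  rw [del, Polynomial.coeff_sub, coeff_topU, Polynomial.coeff_map]

theorem bal_io0 {f : Polynomial (BB D)} (hf : ∀ k, (f.coeff k).IsHomogeneous k) :
    Bal (io0 f) := fun i j => by
  rw [coeff_io0, Polynomial.coeff_C]
  split_ifs with h
  · rw [h]; exact hf i
  · exact isHomogeneous_zero _ _ _

theorem psi_of_homog_zero (μ : Fin 3 → D) {b : BB D} (hb : b.IsHomogeneous 0) : psi μ b = b := by
  have h : homogeneousComponent 0 b = b := homogeneousComponent_eq_self hb
  rw [← h, homogeneousComponent_zero, psi_C]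

theorem del_homog (μ : Fin 3 → D) {t : Pm D} (ht : Bal t) (k : ℕ) :
    ((del μ t).coeff k).IsHomogeneous k := by
  rw [coeff_del]
  exact (by simpa using ht k 0 : ((t.coeff k).coeff 0).IsHomogeneous k).sub
    (psi_homog μ (by simpa using ht 0 k))

theorem del_zero (μ : Fin 3 → D) {t : Pm D} (ht : Bal t) : (del μ t).coeff 0 = 0 := by
  rw [coeff_del, psi_of_homog_zero μ (ht 0 0), sub_self]

theorem homog_of_C_mul [IsDomain D] {a : D} (ha : a ≠ 0) {b : BB D} {k : ℕ}
    (h : (C a * b).IsHomogeneous k) : b.IsHomogeneous k := by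
  intro β hβ
  apply h
  rw [coeff_C_mul]
  exact mul_ne_zero ha hβ

theorem del_add (μ : Fin 3 → D) (s t : Pm D) : del μ (s + t) = del μ s + del μ t := by
  ext1 k
  simp only [coeff_del, Polynomial.coeff_add, map_add]
  ring

theorem io0_add (f g : Polynomial (BB D)) : io0 (f + g) = io0 f + io0 g := Polynomial.map_add _

theorem io0_mul (f g : Polynomial (BB D)) : io0 (f * g) = io0 f * io0 g := Polynomial.map_mul _

theorem topU_mul (s t : Pm D) : topU (s * t) = topU s * topU t := Polynomial.map_mul _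

theorem topU_sub (s t : Pm D) : topU (s - t) = topU s - topU t := Polynomial.map_sub _

theorem del_mul {w : D} {μ : Fin 3 → D} (r : TT w μ) (t : Pm D) :
    del μ (r.1.1 * t) = topU r.1.1 * del μ t := by
  have h : topU r.1.1 = (r.1.1.coeff 0).map (psi μ) := r.2.2.1
  rw [del, del, topU_mul, Polynomial.mul_coeff_zero, Polynomial.map_mul, ← h, mul_sub]

theorem assemble [IsDomain D] (p e : ℕ) [Fact p.Prime] [CharP D p] (w s : D) (hs : s ≠ 0)
    (μ : Fin 3 → D) (N : ℕ) (θB : BB D →+ BB D) (φ3 : T3 w →+ T3 w)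
    (h1 : ∀ r x, θB (r ^ p ^ e * x) = r * θB x)
    (h2 : ∀ k b, homogeneousComponent k (θB b) = θB (homogeneousComponent (p ^ e * k) b))
    (h3 : ∀ b, C (s ^ N) ∣ θB (psi μ b) - psi μ (θB b))
    (h4 : ∀ r x, φ3 (r ^ p ^ e * x) = r * φ3 x)
    (h5 : ∀ x, res w (φ3 x) = θB (res w x)) :
    ∃ φ : TT w μ →+ TT w μ,
      (∀ r x, φ (r ^ p ^ e * x) - r * φ x ∈ Ideal.span {cst w μ s ^ N}) ∧
      ∀ x, (φ x).1.2 = φ3 x.1.2 := by
  have hq : 0 < p ^ e := pow_pos (Fact.out : p.Prime).pos e
  let φm : Pm D →+ Pm D := lt1 (p ^ e) hq (lt1 (p ^ e) hq θB)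
  have cφm : ∀ t i j, ((φm t).coeff i).coeff j = θB ((t.coeff (p ^ e * i)).coeff (p ^ e * j)) :=
    fun t i j => by rw [coeff_lt1, coeff_lt1]
  have hlin : ∀ r t, φm (r ^ p ^ e * t) = r * φm t :=
    lt1_lin p e hq _ (lt1_lin p e hq θB h1)
  have hbal : ∀ t, Bal t → Bal (φm t) := fun t ht i j => by
    rw [cφm]
    have hb := ht (p ^ e * i) (p ^ e * j)
    rw [← mul_add] at hb
    rw [← homogeneousComponent_eq_self hb, ← h2]
    exact homogeneousComponent_isHomogeneous _ _
  have hmem : ∀ x : TT w μ, (φm x.1.1 - io0 (del μ (φm x.1.1)), φ3 x.1.2) ∈ TT w μ := fun x => by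
    have hb := hbal _ x.2.1
    have h0 : (φm x.1.1 - io0 (del μ (φm x.1.1))).coeff 0 = (φm x.1.1).coeff 0 := by
      rw [Polynomial.coeff_sub, coeff_io0, del_zero μ hb, map_zero, sub_zero]
    refine ⟨hb.sub (bal_io0 (del_homog μ hb)), ?_, ?_⟩
    · change topU _ = _
      rw [h0, topU_sub, topU_io0, del, sub_sub_cancel]
    · rw [h0]
      ext1 k
      rw [cφm, mul_zero, x.2.2.2, coeff_scale, coeff_scale, h5, h2]
  let φ : TT w μ →+ TT w μ :=
    { toFun := fun x => ⟨(φm x.1.1 - io0 (del μ (φm x.1.1)), φ3 x.1.2), hmem x⟩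
      map_zero' := by
        apply TT_ext
        · change φm 0 - io0 (del μ (φm 0)) = 0
          have h0 : io0 (del μ (0 : Pm D)) = 0 := by simp [io0, del, topU]
          rw [map_zero, h0]
          exact sub_self (0 : Pm D)
        · exact map_zero φ3
      map_add' := fun a b => by
        apply TT_ext
        · change φm (a.1.1 + b.1.1) - io0 (del μ (φm (a.1.1 + b.1.1))) =
            (φm a.1.1 - io0 (del μ (φm a.1.1))) + (φm b.1.1 - io0 (del μ (φm b.1.1)))
          rw [map_add, del_add, io0_add]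
          ring
        · exact map_add φ3 _ _ }
  refine ⟨φ, fun r x => ?_, fun x => rfl⟩
  have hb := hbal _ x.2.1
  have hdvd : Polynomial.C (C (s ^ N)) ∣ del μ (φm x.1.1) := by
    rw [Polynomial.C_dvd_iff_dvd_coeff]
    intro k
    rw [coeff_del, cφm, cφm, mul_zero]
    have h := congrArg (fun f => Polynomial.coeff f (p ^ e * k)) x.2.2.1
    simp only [Polynomial.coeff_map, Polynomial.constantCoeff_apply] at h
    rw [h]
    exact h3 _
  obtain ⟨b, hb'⟩ := hdvd
  have hbh : ∀ k, (b.coeff k).IsHomogeneous k := fun k => by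
    apply homog_of_C_mul (pow_ne_zero N hs)
    rw [← Polynomial.coeff_C_mul, ← hb']
    exact del_homog μ hb k
  have hb0 : b.coeff 0 = 0 := by
    have h := del_zero μ hb
    rw [hb', Polynomial.coeff_C_mul] at h
    exact (mul_eq_zero.1 h).resolve_left (by simpa using fun h => absurd h hs)
  have hr : ∀ k, ((topU r.1.1).coeff k).IsHomogeneous k := fun k => by
    rw [coeff_topU]; simpa using r.2.1 k 0
  have he : ((r.1.1 - io0 (topU r.1.1)) * io0 b, (0 : T3 w)) ∈ TT w μ := by
    have h0 : ((r.1.1 - io0 (topU r.1.1)) * io0 b).coeff 0 = 0 := by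
      rw [Polynomial.mul_coeff_zero, coeff_io0, hb0, map_zero, mul_zero]
    refine ⟨(r.2.1.sub (bal_io0 hr)).mul (bal_io0 hbh), ?_, ?_⟩
    · change topU _ = _
      rw [h0, topU_mul, topU_sub, topU_io0, sub_self, zero_mul, Polynomial.map_zero]
    · rw [h0, map_zero, map_zero]
  rw [Ideal.mem_span_singleton]
  refine ⟨⟨_, he⟩, ?_⟩
  apply TT_ext
  · change φm (r.1.1 ^ p ^ e * x.1.1) - io0 (del μ (φm (r.1.1 ^ p ^ e * x.1.1))) -
      r.1.1 * (φm x.1.1 - io0 (del μ (φm x.1.1))) =
      (Polynomial.C (Polynomial.C (C s))) ^ N * ((r.1.1 - io0 (topU r.1.1)) * io0 b)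
    rw [hlin, del_mul, hb', io0_mul, io0_mul]
    have : io0 (Polynomial.C (C (s ^ N))) = (Polynomial.C (Polynomial.C (C s))) ^ N := by
      simp [io0]
    rw [this]
    ring
  · change φ3 (r.1.2 ^ p ^ e * x.1.2) - r.1.2 * φ3 x.1.2 = (mk3 w (C (C s))) ^ N * 0
    rw [h4, sub_self, mul_zero]

end Pool.Agent.MP_961ca8_al.H18
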