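import Pool.Agent.MP_961ca8_al.H18.Defs

/-!
Interface statements for the counterexample (abstract modules).
-/

namespace Pool.Agent.MP_961ca8_al.H18

open Cardinal

/-- The final statement for one prime. -/
def Final (p : ℕ) : Prop :=
  ∃ (R : Type) (_ : CommRing R), IsNoetherianRing R ∧ CharP R p ∧ IsDomain R ∧ IsLocalRing R ∧
    WeaklyFRegular p R ∧ ¬ FRegular p R

/-- What the explicit ring `T` provides. -/
structure Core (p : ℕ) (T : Type) [CommRing T] (Q m : Ideal T) (s w : T) : Prop where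
  noeth : IsNoetherianRing T
  char : CharP T p
  Qprime : Q.IsPrime
  mmax : m.IsMaximal
  Qle : Q ≤ m
  smem : s ∈ m
  sQ : s ∉ Q
  wmem : w ∈ m
  wQ : w ∉ Q
  nzd : ∀ c : T, c ∉ Q → ∀ x : T, c * x = 0 → x = 0
  card1 : ℵ₀ < Cardinal.mk (T ⧸ Q)
  card2 : Cardinal.mk T ≤ Cardinal.mk (T ⧸ Q)
  split : ∀ c : T, c ∉ Q → ∀ N e₀ : ℕ, ∃ e : ℕ, e₀ ≤ e ∧ ∃ φ : T →+ T,
    (∀ r x : T, φ (r ^ p ^ e * x) - r * φ x ∈ Ideal.span {s ^ N}) ∧ φ c ∉ m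
  fail : ∃ (I : Ideal T) (u : T) (L : ℕ), w ^ L ∈ I ∧
    (∀ (n : ℕ) (σ : T), σ ∉ m → σ * s ^ n * u ∉ I) ∧
    ∀ e : ℕ, ∃ n : ℕ, s ^ n * w * u ^ p ^ e ∈ frobPow I (p ^ e)

/-- Module H: a subring that hides the prime `Q`. -/
def HideStmt : Prop :=
  ∀ (T : Type) [CommRing T] (Q : Ideal T), Q.IsPrime →
    (∀ c : T, c ∉ Q → ∀ x : T, c * x = 0 → x = 0) →
    ℵ₀ < Cardinal.mk (T ⧸ Q) → Cardinal.mk T ≤ Cardinal.mk (T ⧸ Q) →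
    ∃ A : Subring T, (∀ a ∈ A, a ∈ Q → a = 0) ∧
      (∀ f : T, f ∉ Q → ∀ t : T, ∃ a ∈ A, ∃ z : T, t = a + f * z) ∧
      (∀ f ∈ A, f ≠ 0 → ∀ z : T, f * z ∈ A → z ∈ A)

/-- Module A: assembly. -/
def AsmStmt : Prop :=
  ∀ (p : ℕ) (T : Type) [CommRing T] (Q m : Ideal T) (s w : T), p.Prime →
    Core p T Q m s w → Final p

/-- Module M: from the absence of approximate splittings to an ideal. -/
def MIStmt : Prop :=
  ∀ (p : ℕ) (K S : Type) [Field K] [CommRing S] [Algebra K S] [CharP S p] [IsNoetherianRing S]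
    (ε : S →ₐ[K] K) (N : ℕ) (x y c : S), p.Prime → 0 < N →
    ε x = 0 → ε y = 0 → (∀ t : S, x * t = 0 → t = 0) → (∀ t : S, x ∣ y * t → x ∣ t) →
    (∀ (e : ℕ) (φ : S →+ S),
      (∀ r t : S, φ (r ^ p ^ e * t) - r * φ t ∈ (RingHom.ker ε) ^ N) → ε (φ c) = 0) →
    ∃ (I : Ideal S) (u : S) (L : ℕ), x ^ L ∈ I ∧ (∀ σ : S, σ * u ∈ I → ε σ = 0) ∧
      ∀ e : ℕ, c * u ^ p ^ e ∈ frobPow I (p ^ e)

/-- Module D1: traces on `F_p[[s]][w]`. -/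
def TraceStmt : Prop :=
  ∀ (p : ℕ) [Fact p.Prime] (c : Polynomial (PowerSeries (ZMod p))), c ≠ 0 →
    ∃ l e₁ : ℕ, ∀ e : ℕ, e₁ ≤ e →
      ∃ θ : Polynomial (PowerSeries (ZMod p)) →+ Polynomial (PowerSeries (ZMod p)),
        (∀ r x, θ (r ^ p ^ e * x) = r * θ x) ∧
        PowerSeries.constantCoeff ((θ (Polynomial.X ^ (p ^ e - 1 - l) * c)).coeff 0) ≠ 0

/-- Module D2: a unit `(1+s)^α` with `α` a `p`-adic Liouville number. -/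
def MuStmt : Prop :=
  ∀ (p : ℕ) [Fact p.Prime], ∃ μ : PowerSeries (ZMod p), PowerSeries.constantCoeff μ = 1 ∧
    (∀ C : ℕ, ∃ A P : ℕ, 0 < A ∧ C * A ≤ P ∧
      (PowerSeries.X : PowerSeries (ZMod p)) ^ P ∣ μ - (1 + PowerSeries.X) ^ A) ∧
    ∀ i j i' j' : ℕ, (1 + PowerSeries.X) ^ i * μ ^ j = (1 + PowerSeries.X) ^ i' * μ ^ j' →
      i = i' ∧ j = j'

end Pool.Agent.MP_961ca8_al.H18
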