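import Pool.Agent.MP_961ca8_al.H18.Ring

/-!
Interface statements about the ring `TT w μ`.
-/

namespace Pool.Agent.MP_961ca8_al.H18

open MvPolynomial

variable {D : Type} [CommRing D]

/-- first component, coefficients mapped to `K` -/
noncomputable def piT (w : D) (μ : Fin 3 → D) {K : Type} [CommRing K] (κ : D →+* K) :
    TT w μ →+* Pm K :=
  (Polynomial.mapRingHom (Polynomial.mapRingHom (MvPolynomial.map κ))).comp
    ((RingHom.fst _ _).comp (TT w μ).subtype)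

/-- `w ↦ 0`, `X j ↦ ε X j`, `a₀ ↦ ε^5`, `a₁, a₂ ↦ 0` -/
noncomputable def rho3 (w : D) {K : Type} [CommRing K] (κ : D →+* K) (hw : κ w = 0) :
    T3 w →+* Polynomial (BB K) :=
  lift3 w (eval₂Hom ((scale K).comp (MvPolynomial.map κ)) ![Polynomial.X ^ 5, 0, 0])
    (by simp [FF, hw])

noncomputable def rhoT (w : D) (μ : Fin 3 → D) {K : Type} [CommRing K] (κ : D →+* K)
    (hw : κ w = 0) : TT w μ →+* Polynomial (BB K) :=
  (rho3 w κ hw).comp ((RingHom.snd _ _).comp (TT w μ).subtype)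

/-- Module W: approximate splittings. -/
def SplitStmt : Prop :=
  ∀ (p : ℕ) (D k : Type) [CommRing D] [IsDomain D] [CharP D p] [Field k] (w s : D)
    (μ : Fin 3 → D) (ev : D →+* k), p.Prime → μ 0 = 1 → (∀ j, IsUnit (μ j)) → s ≠ 0 →
    (∀ C : ℕ, ∃ A P : ℕ, 0 < A ∧ C * A ≤ P ∧ s ^ P ∣ μ 2 - μ 1 ^ A) →
    (∀ c : D, c ≠ 0 → ∃ l e₁ : ℕ, ∀ e : ℕ, e₁ ≤ e → ∃ θ : D →+ D,
      (∀ r x, θ (r ^ p ^ e * x) = r * θ x) ∧ ev (θ (w ^ (p ^ e - 1 - l) * c)) ≠ 0) →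
    ∀ c : TT w μ, dpart w μ c ≠ 0 → ∀ N e₀ : ℕ, ∃ e : ℕ, e₀ ≤ e ∧ ∃ φ : TT w μ →+ TT w μ,
      (∀ r x, φ (r ^ p ^ e * x) - r * φ x ∈ Ideal.span {cst w μ s ^ N}) ∧
      ev (dpart w μ (φ c)) ≠ 0

/-- Module L: no approximate splitting of `w` over the field `K`. -/
def LpStmt : Prop :=
  ∀ (p : ℕ) (D K S : Type) [CommRing D] [CharP D p] [Field K] [CommRing S] (w : D)
    (μ : Fin 3 → D) (κ : D →+* K) (hw : κ w = 0) (j : TT w μ →+* S) (ι : K →+* S)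
    (ε : S →+* K) (πS : S →+* Pm K) (ρS : S →+* Polynomial (BB K)), p.Prime → μ 0 = 1 →
    (∀ a b a' b' : ℕ, κ (μ 1) ^ a * κ (μ 2) ^ b = κ (μ 1) ^ a' * κ (μ 2) ^ b' →
      a = a' ∧ b = b') →
    (∀ t, πS (j t) = piT w μ κ t) → (∀ t, ρS (j t) = rhoT w μ κ hw t) →
    (∀ t, ε (j t) = κ (dpart w μ t)) →
    (∀ x, πS (ι x) = Polynomial.C (Polynomial.C (C x))) → (∀ x, ρS (ι x) = Polynomial.C (C x)) →
    (∀ x, ε (ι x) = x) →
    (∀ i, j (cst w μ (μ i)) = ι (κ (μ i))) →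
    (∀ y : S, ∃ (x : K) (t : TT w μ), y = ι x * j t) →
    ∀ (e : ℕ) (φ : S →+ S),
      (∀ r t : S, φ (r ^ p ^ e * t) - r * φ t ∈ (RingHom.ker ε) ^ 10) →
      ε (φ (j (cst w μ w))) = 0

/-- Module C: the concrete ring satisfies `Core`. -/
def CoreStmt : Prop :=
  ∀ p : ℕ, p.Prime → ∃ (T : Type) (_ : CommRing T) (Q m : Ideal T) (s w : T), Core p T Q m s w

end Pool.Agent.MP_961ca8_al.H18
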