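import Pool.Agent.MP_961ca8_al.H18.Split
import Pool.Agent.MP_961ca8_al.H18.Asm2
import Pool.Agent.MP_961ca8_al.H20.Base
import Pool.Agent.MP_961ca8_al.H28.Noeth
import Pool.Agent.MP_961ca8_al.H72.Lp
import Pool.Agent.MP_961ca8_al.H86.MI
import Pool.Agent.MP_961ca8_al.H86.Core

namespace Pool.Agent.MP_961ca8_al.H18

theorem main (p : ℕ) (hp : p.Prime) : Final p := by
  obtain ⟨T, _, Q, m, s, w, h⟩ :=
    H86.core H28.noeth H28.nzd split H72.lp H86.mi H20.trace H20.mu p hp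
  exact A28.asm p T Q m s w hp h

end Pool.Agent.MP_961ca8_al.H18
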