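import Pool.Agent.MP_961ca8_al.H18.Iface

/-!
The ring `TT w μ` over a base ring `D`.
-/

namespace Pool.Agent.MP_961ca8_al.H18

open MvPolynomial

abbrev BB (D : Type) [CommRing D] : Type := MvPolynomial (Fin 3) D
abbrev P3 (D : Type) [CommRing D] : Type := MvPolynomial (Fin 3) (BB D)
abbrev Pm (D : Type) [CommRing D] : Type := Polynomial (Polynomial (BB D))

variable {D : Type} [CommRing D]

noncomputable def xi (D : Type) [CommRing D] : BB D := X 1 - X 0
noncomputable def eta (D : Type) [CommRing D] : BB D := X 2 - X 0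
noncomputable def FF (w : D) : P3 D := C (C w) * X 0 + C (xi D) * X 1 + C (eta D) * X 2
abbrev T3 (w : D) : Type := P3 D ⧸ Ideal.span {FF w}
noncomputable def mk3 (w : D) : P3 D →+* T3 w := Ideal.Quotient.mk _

theorem mk3_surj (w : D) : Function.Surjective (mk3 w) := Ideal.Quotient.mk_surjective

theorem mk3_FF (w : D) : mk3 w (FF w) = 0 :=
  Ideal.Quotient.eq_zero_iff_mem.2 (Ideal.subset_span rfl)

theorem mk3_eq_zero (w : D) (t : P3 D) : mk3 w t = 0 ↔ FF w ∣ t := by
  rw [mk3, Ideal.Quotient.eq_zero_iff_mem, Ideal.mem_span_singleton]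

/-- a ring map out of `T3` -/
noncomputable def lift3 (w : D) {R : Type} [CommRing R] (f : P3 D →+* R) (hf : f (FF w) = 0) :
    T3 w →+* R :=
  Ideal.Quotient.lift _ f (fun a ha => by
    obtain ⟨b, rfl⟩ := Ideal.mem_span_singleton.1 ha
    rw [map_mul, hf, zero_mul])

@[simp] theorem lift3_mk3 (w : D) {R : Type} [CommRing R] (f : P3 D →+* R) (hf : f (FF w) = 0)
    (t : P3 D) : lift3 w f hf (mk3 w t) = f t := rfl

/-- restriction to `a = 0` -/
noncomputable def res (w : D) : T3 w →+* BB D :=
  lift3 w constantCoeff (by simp [FF])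

@[simp] theorem res_mk3 (w : D) (t : P3 D) : res w (mk3 w t) = constantCoeff t := rfl

noncomputable def psi (μ : Fin 3 → D) : BB D →+* BB D :=
  eval₂Hom C (fun j => C (μ j) * X j)

@[simp] theorem psi_C (μ : Fin 3 → D) (d : D) : psi μ (C d) = C d := by simp [psi]
@[simp] theorem psi_X (μ : Fin 3 → D) (j : Fin 3) : psi μ (X j) = C (μ j) * X j := by simp [psi]

theorem psi_monomial (μ : Fin 3 → D) (β : Fin 3 →₀ ℕ) (d : D) :
    psi μ (monomial β d) = monomial β ((∏ j, μ j ^ β j) * d) := by
  rw [monomial_eq, monomial_eq, map_mul, psi_C, Finsupp.prod_fintype _ _ (by simp), map_prod]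
  simp only [map_pow, psi_X, mul_pow, Finset.prod_mul_distrib, map_mul, map_prod]
  ring

theorem coeff_psi (μ : Fin 3 → D) (β : Fin 3 →₀ ℕ) (b : BB D) :
    coeff β (psi μ b) = (∏ j, μ j ^ β j) * coeff β b := by
  induction b using MvPolynomial.induction_on' with
  | monomial γ d =>
    rw [psi_monomial, coeff_monomial, coeff_monomial]
    split_ifs with h
    · rw [h]
    · simp
  | add a b ha hb => rw [map_add, coeff_add, ha, hb, coeff_add, mul_add]

theorem psi_homog (μ : Fin 3 → D) {b : BB D} {k : ℕ} (hb : b.IsHomogeneous k) :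
    (psi μ b).IsHomogeneous k := by
  intro β hβ
  rw [coeff_psi] at hβ
  exact hb (right_ne_zero_of_mul hβ)

theorem psi_hc (μ : Fin 3 → D) (b : BB D) (k : ℕ) :
    psi μ (homogeneousComponent k b) = homogeneousComponent k (psi μ b) := by
  ext β
  rw [coeff_psi, coeff_homogeneousComponent, coeff_homogeneousComponent, coeff_psi]
  split_ifs <;> simp

theorem constantCoeff_psi (μ : Fin 3 → D) (b : BB D) :
    constantCoeff (psi μ b) = constantCoeff b := by
  have := coeff_psi μ 0 b
  simpa [constantCoeff_eq] using this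

noncomputable def scale (D : Type) [CommRing D] : BB D →+* Polynomial (BB D) :=
  eval₂Hom (Polynomial.C.comp C) (fun j => Polynomial.C (X j) * Polynomial.X)

@[simp] theorem scale_C (d : D) : scale D (C d) = Polynomial.C (C d) := by simp [scale]
@[simp] theorem scale_X (j : Fin 3) : scale D (X j) = Polynomial.C (X j) * Polynomial.X := by
  simp [scale]

theorem scale_monomial (β : Fin 3 →₀ ℕ) (d : D) :
    scale D (monomial β d) = Polynomial.monomial β.degree (monomial β d) := by
  rw [monomial_eq, map_mul, scale_C, Finsupp.prod_fintype _ _ (by simp), map_prod,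
    ← Polynomial.C_mul_X_pow_eq_monomial]
  simp only [map_pow, scale_X, mul_pow, Finset.prod_mul_distrib, map_mul, map_prod]
  rw [Finset.prod_pow_eq_pow_sum, Finsupp.degree_eq_sum]
  ring

theorem coeff_scale (b : BB D) (k : ℕ) : (scale D b).coeff k = homogeneousComponent k b := by
  induction b using MvPolynomial.induction_on' with
  | monomial γ d =>
    rw [scale_monomial, Polynomial.coeff_monomial]
    ext β
    rw [coeff_homogeneousComponent]
    by_cases h : γ = β
    · subst h
      split_ifs <;> simp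
    · split_ifs <;> simp [coeff_monomial, h]
  | add a b ha hb => rw [map_add, Polynomial.coeff_add, ha, hb, map_add]

theorem scale_homog {b : BB D} {k : ℕ} (hb : b.IsHomogeneous k) :
    scale D b = Polynomial.monomial k b := by
  ext1 i
  rw [coeff_scale, Polynomial.coeff_monomial, homogeneousComponent_of_mem hb]
  by_cases h : i = k
  · simp [h]
  · simp [h, Ne.symm h]

theorem eval_scale (b : BB D) : (scale D b).eval 1 = b := by
  induction b using MvPolynomial.induction_on with
  | C d => simp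
  | add a b ha hb => simp [ha, hb]
  | mul_X a j ha => simp [ha]

theorem scale_inj : Function.Injective (scale D) := fun a b h => by
  rw [← eval_scale a, h, eval_scale]

/-- balanced: the coefficient of `U₀^i U₁^j` is homogeneous of degree `i + j` -/
def Bal (t : Pm D) : Prop := ∀ i j, ((t.coeff i).coeff j).IsHomogeneous (i + j)

theorem Bal.add {s t : Pm D} (hs : Bal s) (ht : Bal t) : Bal (s + t) := fun i j => by
  rw [Polynomial.coeff_add, Polynomial.coeff_add]; exact (hs i j).add (ht i j)

theorem Bal.neg {t : Pm D} (ht : Bal t) : Bal (-t) := fun i j => by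
  rw [Polynomial.coeff_neg, Polynomial.coeff_neg]; exact (ht i j).neg

theorem Bal.sub {s t : Pm D} (hs : Bal s) (ht : Bal t) : Bal (s - t) := fun i j => by
  rw [Polynomial.coeff_sub, Polynomial.coeff_sub]; exact (hs i j).sub (ht i j)

theorem Bal.mul {s t : Pm D} (hs : Bal s) (ht : Bal t) : Bal (s * t) := fun i j => by
  rw [Polynomial.coeff_mul, Polynomial.finsetSum_coeff]
  refine IsHomogeneous.sum _ _ _ fun a ha => ?_
  rw [Polynomial.coeff_mul]
  refine IsHomogeneous.sum _ _ _ fun b hb => ?_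
  have h1 : a.1 + a.2 = i := by simpa using ha
  have h2 : b.1 + b.2 = j := by simpa using hb
  have := (hs a.1 b.1).mul (ht a.2 b.2)
  rwa [show a.1 + b.1 + (a.2 + b.2) = i + j by omega] at this

theorem bal_mono {i j : ℕ} {b : BB D} (hb : b.IsHomogeneous (i + j)) :
    Bal (Polynomial.monomial i (Polynomial.monomial j b)) := fun i' j' => by
  rw [Polynomial.coeff_monomial]
  split_ifs with h
  · rw [Polynomial.coeff_monomial]
    split_ifs with h'
    · rw [← h, ← h']; exact hb
    · exact isHomogeneous_zero _ _ _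
  · rw [Polynomial.coeff_zero]; exact isHomogeneous_zero _ _ _

theorem bal_zero : Bal (0 : Pm D) := fun i j => by simpa using isHomogeneous_zero _ _ _

theorem bal_C (d : D) : Bal (Polynomial.C (Polynomial.C (C d)) : Pm D) :=
  bal_mono (i := 0) (j := 0) (isHomogeneous_C _ d)

/-- The ring `T`. -/
noncomputable def TT (w : D) (μ : Fin 3 → D) : Subring (Pm D × T3 w) where
  carrier := {z | Bal z.1 ∧ z.1.map Polynomial.constantCoeff = (z.1.coeff 0).map (psi μ) ∧
    z.1.coeff 0 = scale D (res w z.2)}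
  mul_mem' := by
    rintro a b ⟨h1, h2, h3⟩ ⟨h4, h5, h6⟩
    refine ⟨h1.mul h4, ?_, ?_⟩
    · rw [Prod.fst_mul, Polynomial.map_mul, Polynomial.mul_coeff_zero, Polynomial.map_mul, h2, h5]
    · rw [Prod.fst_mul, Prod.snd_mul, Polynomial.mul_coeff_zero, map_mul, map_mul, h3, h6]
  one_mem' := ⟨by simpa using bal_C (1 : D), by simp [Polynomial.coeff_one], by simp [Polynomial.coeff_one]⟩
  add_mem' := by
    rintro a b ⟨h1, h2, h3⟩ ⟨h4, h5, h6⟩
    refine ⟨h1.add h4, ?_, ?_⟩
    · rw [Prod.fst_add, Polynomial.map_add, Polynomial.coeff_add, Polynomial.map_add, h2, h5]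
    · rw [Prod.fst_add, Prod.snd_add, Polynomial.coeff_add, map_add, map_add, h3, h6]
  zero_mem' := ⟨bal_zero, by simp, by simp⟩
  neg_mem' := by
    rintro a ⟨h1, h2, h3⟩
    refine ⟨h1.neg, ?_, ?_⟩
    · rw [Prod.fst_neg, Polynomial.map_neg, Polynomial.coeff_neg, Polynomial.map_neg, h2]
    · rw [Prod.fst_neg, Prod.snd_neg, Polynomial.coeff_neg, map_neg, map_neg, h3]

theorem mem_TT {w : D} {μ : Fin 3 → D} {z : Pm D × T3 w} : z ∈ TT w μ ↔
    Bal z.1 ∧ z.1.map Polynomial.constantCoeff = (z.1.coeff 0).map (psi μ) ∧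
    z.1.coeff 0 = scale D (res w z.2) := Iff.rfl

variable (w : D) (μ : Fin 3 → D)

/-- constants -/
noncomputable def cst : D →+* TT w μ :=
  RingHom.codRestrict
    (RingHom.prod (Polynomial.C.comp (Polynomial.C.comp C)) ((mk3 w).comp (C.comp C))) (TT w μ)
    (fun d => ⟨bal_C d, by simp, by simp⟩)

@[simp] theorem cst_fst (d : D) :
    (cst w μ d).1.1 = Polynomial.C (Polynomial.C (C d)) := rfl
@[simp] theorem cst_snd (d : D) : (cst w μ d).1.2 = mk3 w (C (C d)) := rfl

/-- the part in `D` -/
noncomputable def dpart : TT w μ →+* D :=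
  constantCoeff.comp ((res w).comp ((RingHom.snd _ _).comp (TT w μ).subtype))

theorem dpart_def (z : TT w μ) : dpart w μ z = constantCoeff (res w z.1.2) := rfl

@[simp] theorem dpart_cst (d : D) : dpart w μ (cst w μ d) = d := by simp [dpart_def]

theorem dpart_fst (z : TT w μ) : (z.1.1.coeff 0).coeff 0 = C (dpart w μ z) := by
  rw [z.2.2.2, coeff_scale, homogeneousComponent_zero, dpart_def, constantCoeff_eq]

/-- the element with bottom part `b`, homogeneous of degree `d > 0` -/
noncomputable def sec (d : ℕ) (hd : 0 < d) (b : BB D) (hb : b.IsHomogeneous d) : TT w μ :=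
  ⟨(Polynomial.monomial 0 (Polynomial.monomial d b) +
      Polynomial.monomial d (Polynomial.monomial 0 (psi μ b)), mk3 w (C b)), by
    refine ⟨(bal_mono (by simpa using hb)).add (bal_mono (by simpa using psi_homog μ hb)), ?_, ?_⟩
    · simp [Polynomial.coeff_monomial, hd.ne', Polynomial.map_monomial]
    · simp [Polynomial.coeff_monomial, hd.ne', scale_homog hb]⟩

@[simp] theorem sec_fst (d : ℕ) (hd : 0 < d) (b : BB D) (hb : b.IsHomogeneous d) :
    (sec w μ d hd b hb).1.1 = Polynomial.monomial 0 (Polynomial.monomial d b) +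
      Polynomial.monomial d (Polynomial.monomial 0 (psi μ b)) := rfl
@[simp] theorem sec_snd (d : ℕ) (hd : 0 < d) (b : BB D) (hb : b.IsHomogeneous d) :
    (sec w μ d hd b hb).1.2 = mk3 w (C b) := rfl

/-- a monomial of the conductor -/
noncomputable def con (i j : ℕ) (hi : 0 < i) (hj : 0 < j) (b : BB D)
    (hb : b.IsHomogeneous (i + j)) : TT w μ :=
  ⟨(Polynomial.monomial i (Polynomial.monomial j b), 0), by
    refine ⟨bal_mono hb, ?_, ?_⟩
    · simp [Polynomial.coeff_monomial, hi.ne', hj.ne', Polynomial.map_monomial]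
    · simp [Polynomial.coeff_monomial, hi.ne']⟩

@[simp] theorem con_fst (i j : ℕ) (hi : 0 < i) (hj : 0 < j) (b : BB D)
    (hb : b.IsHomogeneous (i + j)) :
    (con w μ i j hi hj b hb).1.1 = Polynomial.monomial i (Polynomial.monomial j b) := rfl
@[simp] theorem con_snd (i j : ℕ) (hi : 0 < i) (hj : 0 < j) (b : BB D)
    (hb : b.IsHomogeneous (i + j)) : (con w μ i j hi hj b hb).1.2 = 0 := rfl

/-- the element `a_i t` of the quadric component -/
noncomputable def aT (i : Fin 3) (t : P3 D) : TT w μ :=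
  ⟨(0, mk3 w (X i * t)), ⟨bal_zero, by simp, by simp⟩⟩

@[simp] theorem aT_fst (i : Fin 3) (t : P3 D) : (aT w μ i t).1.1 = 0 := rfl
@[simp] theorem aT_snd (i : Fin 3) (t : P3 D) : (aT w μ i t).1.2 = mk3 w (X i * t) := rfl

/-- the lift of `X j` -/
noncomputable def yT (j : Fin 3) : TT w μ := sec w μ 1 one_pos (X j) (isHomogeneous_X _ _)

theorem TT_ext {a b : TT w μ} (h1 : a.1.1 = b.1.1) (h2 : a.1.2 = b.1.2) : a = b :=
  Subtype.ext (Prod.ext h1 h2)

/-- Module N: `T` is Noetherian. -/
def NoethStmt : Prop :=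
  ∀ (D : Type) [CommRing D] [IsNoetherianRing D] (w : D) (μ : Fin 3 → D),
    (∀ j, IsUnit (μ j)) → IsNoetherianRing (TT w μ)

/-- Module Z: non-zero-divisors. -/
def NzdStmt : Prop :=
  ∀ (D : Type) [CommRing D] [IsDomain D] [UniqueFactorizationMonoid D] (w : D) (μ : Fin 3 → D),
    Prime w →
    (∀ c x : TT w μ, dpart w μ c ≠ 0 → c * x = 0 → x = 0) ∧
    (∀ t : TT w μ, cst w μ w ∣ yT w μ 0 * t → cst w μ w ∣ t)

end Pool.Agent.MP_961ca8_al.H18
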