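import Pool.Agent.MP_961ca8_al.H18.Glue
import Pool.Agent.MP_961ca8_al.H18.Iface2

/-!
Module W: approximate splittings of `TT`.
-/

namespace Pool.Agent.MP_961ca8_al.H18

open MvPolynomial

theorem choose_cast (p e : ℕ) (hp : p.Prime) (k : Type) [CommRing k] [CharP k p] (l : ℕ)
    (hl : l < p ^ e) : (((p ^ e - 1).choose l : ℕ) : k) = (-1) ^ l := by
  induction l with
  | zero => simp
  | succ l ih =>
    have h1 : (p ^ e - 1).choose l + (p ^ e - 1).choose (l + 1) = (p ^ e).choose (l + 1) := by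
      rw [← Nat.choose_succ_succ', Nat.sub_add_cancel (by omega)]
    have h2 : (((p ^ e).choose (l + 1) : ℕ) : k) = 0 :=
      (CharP.cast_eq_zero_iff k p _).2 (hp.dvd_choose_pow (by omega) (by omega))
    rw [← h1, Nat.cast_add, ih (by omega)] at h2
    rw [pow_succ]
    linear_combination h2

theorem multi3 (a b c : ℕ) :
    Nat.multinomial Finset.univ ![a, b, c] = (a + b + c).choose (b + c) * (b + c).choose b := by
  rw [Nat.multinomial_univ_three]
  apply Nat.div_eq_of_eq_mul_left (by positivity)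
  have h1 := Nat.add_choose_mul_factorial_mul_factorial a (b + c)
  have h2 := Nat.add_choose_mul_factorial_mul_factorial c b
  rw [← add_assoc] at h1
  rw [add_comm c b] at h2
  rw [← h1, ← h2]
  ring

section
variable {Λ : Type} [CommRing Λ]

noncomputable def v3 (a b c : ℕ) : Fin 3 →₀ ℕ := Finsupp.equivFunOnFinite.symm ![a, b, c]

theorem coeff_lin_pow (u v z : Λ) (a b c : ℕ) :
    coeff (v3 a b c) ((C u * X 0 + C v * X 1 + C z * X 2 : MvPolynomial (Fin 3) Λ) ^ (a + b + c)) =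
      (((a + b + c).choose (b + c) * (b + c).choose b : ℕ) : Λ) * (u ^ a * v ^ b * z ^ c) := by
  have h := coeff_linearCombination_X_pow_of_fintype (![u, v, z] : Fin 3 → Λ) (v3 a b c)
    (a + b + c)
  rw [Fin.sum_univ_three] at h
  simp only [smul_eq_C_mul, Matrix.cons_val_zero, Matrix.cons_val_one, Matrix.cons_val] at h
  rw [h, if_pos, ← Finsupp.multinomial_of_support_subset (Finset.subset_univ _),
    Finsupp.prod_fintype _ _ (by simp), Fin.prod_univ_three, ← multi3]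
  · rfl
  · rw [Finsupp.sum_fintype _ _ (by simp), Fin.sum_univ_three]
    rfl

theorem v3_add (a b c a' b' c' : ℕ) : v3 a b c + v3 a' b' c' = v3 (a + a') (b + b') (c + c') := by
  ext i
  fin_cases i <;> rfl

theorem v3_eq_nvec (n : ℕ) : v3 n n n = nvec n := by
  ext i
  fin_cases i <;> rfl

theorem degree_v3 (a b c : ℕ) : (v3 a b c).degree = a + b + c := by
  rw [Finsupp.degree_eq_sum, Fin.sum_univ_three]
  rfl

theorem monomial_v3 (a b c : ℕ) (r : Λ) :
    (monomial (v3 a b c) r : MvPolynomial (Fin 3) Λ) = C r * (X 0 ^ a * X 1 ^ b * X 2 ^ c) := by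
  rw [monomial_eq, Finsupp.prod_fintype _ _ (by simp), Fin.prod_univ_three]
  rfl

/-- the multiplier on the quadric -/
noncomputable def hh (n l : ℕ) (γ α β : Λ) : MvPolynomial (Fin 3) Λ :=
  ∑ b ∈ Finset.range (l + 1), monomial (v3 l (n - b) (n - (l - b))) (γ * (α ^ b * β ^ (l - b)))

theorem hh_homog (n l : ℕ) (hl : l ≤ n) (γ α β : Λ) : (hh n l γ α β).IsHomogeneous (2 * n) := by
  refine IsHomogeneous.sum _ _ _ fun b hb => isHomogeneous_monomial _ ?_
  rw [Finset.mem_range] at hb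
  rw [degree_v3]
  omega

theorem coeff_hh (n l : ℕ) (hl : l ≤ n) (u v z γ α β : Λ) :
    coeff (nvec n) ((C u * X 0 + C v * X 1 + C z * X 2 : MvPolynomial (Fin 3) Λ) ^ n *
      hh n l γ α β) = (n.choose l : Λ) * u ^ (n - l) * γ * (α * v + β * z) ^ l := by
  rw [hh, Finset.mul_sum, coeff_sum, add_pow (α * v) (β * z), Finset.mul_sum]
  refine Finset.sum_congr rfl fun b hb => ?_
  rw [Finset.mem_range] at hb
  have h1 : nvec n = v3 (n - l) b (l - b) + v3 l (n - b) (n - (l - b)) := by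
    rw [v3_add, ← v3_eq_nvec]
    congr 1 <;> omega
  have h2 := coeff_lin_pow u v z (n - l) b (l - b)
  rw [show n - l + b + (l - b) = n by omega, show b + (l - b) = l by omega] at h2
  rw [h1, coeff_mul_monomial, h2]
  push_cast
  ring

end

variable {D : Type} [CommRing D]

theorem FF_homog (w : D) : (FF w).IsHomogeneous 1 :=
  (((isHomogeneous_X _ _).C_mul _).add ((isHomogeneous_X _ _).C_mul _)).add
    ((isHomogeneous_X _ _).C_mul _)

/-- the map on the quadric component -/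
theorem exists_phi3 (p e : ℕ) [Fact p.Prime] [CharP D p] (w : D) (θ : BB D →+ BB D)
    (hθ : ∀ r x, θ (r ^ p ^ e * x) = r * θ x) (h : P3 D) (hh : h.IsHomogeneous (2 * (p ^ e - 1))) :
    ∃ φ3 : T3 w →+ T3 w, (∀ r x, φ3 (r ^ p ^ e * x) = r * φ3 x) ∧
      ∀ x, res w (φ3 x) = θ (coeff (nvec (p ^ e - 1)) (FF w ^ (p ^ e - 1) * h) * res w x) := by
  have hq : 0 < p ^ e := pow_pos (Fact.out : p.Prime).pos e
  have hH : (FF w ^ (p ^ e - 1) * h).IsHomogeneous (3 * (p ^ e - 1)) := by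
    have := ((FF_homog w).pow (p ^ e - 1)).mul hh
    rwa [show 1 * (p ^ e - 1) + 2 * (p ^ e - 1) = 3 * (p ^ e - 1) by ring] at this
  let f : P3 D →+ T3 w := (mk3 w).toAddMonoidHom.comp
    ((tr (p ^ e) hq θ).comp (AddMonoidHom.mulLeft (FF w ^ (p ^ e - 1) * h)))
  have hf : ∀ t, f t = mk3 w (tr (p ^ e) hq θ (FF w ^ (p ^ e - 1) * h * t)) := fun t => rfl
  have hker : (Ideal.span {FF w}).toAddSubgroup ≤ f.ker := by
    intro a ha
    obtain ⟨b, rfl⟩ := Ideal.mem_span_singleton.1 ha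
    rw [AddMonoidHom.mem_ker, hf]
    have : FF w ^ (p ^ e - 1) * h * (FF w * b) = FF w ^ p ^ e * (h * b) := by
      conv_rhs => rw [← Nat.sub_add_cancel hq, pow_succ]
      ring
    rw [this, tr_lin p e hq θ hθ, map_mul, mk3_FF, zero_mul]
  let φ3 : T3 w →+ T3 w := QuotientAddGroup.lift _ f hker
  have hφ : ∀ t, φ3 (mk3 w t) = f t := fun t => rfl
  refine ⟨φ3, fun r x => ?_, fun x => ?_⟩
  · obtain ⟨r, rfl⟩ := mk3_surj w r
    obtain ⟨x, rfl⟩ := mk3_surj w x
    have h1 : FF w ^ (p ^ e - 1) * h * (r ^ p ^ e * x) =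
        r ^ p ^ e * (FF w ^ (p ^ e - 1) * h * x) := by ring
    rw [← map_pow, ← map_mul, hφ, hφ, hf, hf, h1, tr_lin p e hq θ hθ, map_mul]
  · obtain ⟨x, rfl⟩ := mk3_surj w x
    rw [hφ, hf, res_mk3, res_mk3, cc_tr _ hq θ hH]

/-- the invariant factor -/
noncomputable def EE (D : Type) [CommRing D] (A : ℕ) : BB D := X 1 ^ A - X 0 ^ (A - 1) * X 2

noncomputable def gam (D : Type) [CommRing D] (n m : ℕ) : BB D := X 0 ^ n * X 1 ^ (n - m) * X 2 ^ n

theorem EE_eq (A : ℕ) (hA : 0 < A) : ∃ α β : BB D, α * xi D + β * eta D = EE D A := by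
  obtain ⟨α, hα⟩ := sub_dvd_pow_sub_pow (X 1 : BB D) (X 0) A
  refine ⟨α, -X 0 ^ (A - 1), ?_⟩
  have h : (X 0 : BB D) ^ A = X 0 ^ (A - 1) * X 0 := by
    rw [← pow_succ, Nat.sub_add_cancel hA]
  rw [xi, eta, EE]
  linear_combination -hα - h

theorem EE_homog (A : ℕ) (hA : 0 < A) : (EE D A).IsHomogeneous A := by
  refine (isHomogeneous_X_pow _ _).sub ?_
  have := (isHomogeneous_X_pow (R := D) (0 : Fin 3) (A - 1)).mul (isHomogeneous_X D (2 : Fin 3))
  rwa [Nat.sub_add_cancel hA] at this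

theorem g_homog (d : D) (n l A : ℕ) (hA : 0 < A) (hl : l * A ≤ n) :
    (C d * (gam D n (l * A) * EE D A ^ l)).IsHomogeneous (3 * n) := by
  apply IsHomogeneous.C_mul
  have := (((isHomogeneous_X_pow (R := D) (0 : Fin 3) n).mul
    (isHomogeneous_X_pow (R := D) (1 : Fin 3) (n - l * A))).mul
    (isHomogeneous_X_pow (R := D) (2 : Fin 3) n)).mul ((EE_homog (D := D) A hA).pow l)
  rwa [show n + (n - l * A) + n + A * l = 3 * n by rw [mul_comm A l]; omega] at this

theorem coeff_g (n l A : ℕ) (hl : l * A ≤ n) :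
    coeff (nvec n) (gam D n (l * A) * EE D A ^ l) = 1 := by
  obtain ⟨R, hR⟩ := sub_dvd_pow_sub_pow (EE D A) (X 1 ^ A) l
  have h1 : gam D n (l * A) * EE D A ^ l = monomial (nvec n) 1 +
      X 2 ^ (n + 1) * (-(X 0 ^ n * X 1 ^ (n - l * A) * X 0 ^ (A - 1) * R)) := by
    have h2 : (X 1 : BB D) ^ n = X 1 ^ (n - l * A) * (X 1 ^ A) ^ l := by
      rw [← pow_mul, ← pow_add, mul_comm A l, Nat.sub_add_cancel hl]
    rw [← v3_eq_nvec, monomial_v3, h2, gam, C_1]
    have h3 : EE D A ^ l = (X 1 ^ A) ^ l + (EE D A - X 1 ^ A) * R := by linear_combination hR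
    rw [h3, EE]
    ring
  rw [h1, coeff_add, coeff_monomial, if_pos rfl, X_pow_eq_monomial, coeff_monomial_mul', if_neg,
    add_zero]
  rw [Finsupp.single_le_iff, nvec_apply]
  omega

theorem psi_g (μ : Fin 3 → D) (h0 : μ 0 = 1) (z : D) (n l A : ℕ) (hl : l * A ≤ n)
    (hz : z ∣ μ 2 - μ 1 ^ A) :
    (C z : BB D) ∣ psi μ (gam D n (l * A) * EE D A ^ l) -
      C (∏ j, μ j ^ n) * (gam D n (l * A) * EE D A ^ l) := by
  obtain ⟨y, hy⟩ := hz
  have h1 : (C z : BB D) ∣ psi μ (EE D A) - C (μ 1) ^ A * EE D A := by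
    refine ⟨-(X 0 ^ (A - 1) * X 2 * C y), ?_⟩
    have h2 : (C (μ 2) : BB D) = C (μ 1) ^ A + C z * C y := by
      rw [← map_pow, ← map_mul, ← map_add, ← hy]
      congr 1
      ring
    simp only [EE, map_sub, map_mul, map_pow, psi_X, h0, C_1, h2]
    ring
  obtain ⟨R, hR⟩ := h1.trans (sub_dvd_pow_sub_pow _ _ l)
  refine ⟨psi μ (gam D n (l * A)) * R, ?_⟩
  have h3 : (C (μ 1) : BB D) ^ n = C (μ 1) ^ (n - l * A) * (C (μ 1) ^ A) ^ l := by
    rw [← pow_mul, ← pow_add, mul_comm A l, Nat.sub_add_cancel hl]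
  have h4 : psi μ (gam D n (l * A)) * (C (μ 1) ^ A) ^ l = C (∏ j, μ j ^ n) * gam D n (l * A) := by
    simp only [gam, map_mul, map_pow, psi_X, h0, C_1, Fin.prod_univ_three, h3]
    ring
  rw [map_mul, map_pow]
  rw [mul_pow] at hR
  linear_combination psi μ (gam D n (l * A)) * hR + EE D A ^ l * h4

theorem split : SplitStmt := by
  intro p D k _ _ _ _ w s μ ev hp h0 hu hs hμ hθ c hc N e₀
  have : Fact p.Prime := ⟨hp⟩
  have : CharP k p := by
    have h : (p : k) = 0 := by rw [← map_natCast ev, CharP.cast_eq_zero, map_zero]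
    exact (CharP.charP_iff_prime_eq_zero hp).2 h
  obtain ⟨l, e₁, hθ⟩ := hθ (dpart w μ c) hc
  obtain ⟨A, P, hA, hCA, hP⟩ := hμ (N * (p ^ (e₀ + e₁ + 1) * (2 * l + 1)))
  obtain ⟨e, he⟩ : ∃ e, e = e₀ + e₁ + 1 + Nat.log p (l * A + l) := ⟨_, rfl⟩
  have hq : 0 < p ^ e := pow_pos hp.pos e
  have hlt : l * A + l < p ^ e := by
    calc l * A + l < p ^ (Nat.log p (l * A + l) + 1) := Nat.lt_pow_succ_log_self hp.one_lt _
      _ ≤ p ^ e := Nat.pow_le_pow_right hp.pos (by omega)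
  have hle : N * p ^ e ≤ P := by
    have h1 : p ^ Nat.log p (l * A + l) ≤ (2 * l + 1) * A := by
      rcases Nat.eq_zero_or_pos (l * A + l) with h | h
      · rw [h, Nat.log_zero_right, pow_zero]
        nlinarith
      · have := Nat.pow_log_le_self p h.ne'
        nlinarith
    calc N * p ^ e = N * (p ^ (e₀ + e₁ + 1) * p ^ Nat.log p (l * A + l)) := by rw [he, pow_add]
      _ ≤ N * (p ^ (e₀ + e₁ + 1) * ((2 * l + 1) * A)) := by gcongr
      _ = N * (p ^ (e₀ + e₁ + 1) * (2 * l + 1)) * A := by ring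
      _ ≤ P := hCA
  obtain ⟨θ, hθl, hθc⟩ := hθ e (by omega)
  obtain ⟨n, hn⟩ : ∃ n, n = p ^ e - 1 := ⟨_, rfl⟩
  have hlA : l * A ≤ n := by omega
  have hln : l ≤ n := by omega
  obtain ⟨α, β, hαβ⟩ := EE_eq (D := D) A hA
  obtain ⟨Ξ, hΞ⟩ : ∃ Ξ, Ξ = tr (p ^ e) hq θ := ⟨_, rfl⟩
  have hΞl : ∀ r x, Ξ (r ^ p ^ e * x) = r * Ξ x := by
    rw [hΞ]; exact tr_lin p e hq θ hθl
  obtain ⟨g, hg⟩ : ∃ g : BB D,
    g = C ((n.choose l : D) * w ^ (n - l)) * (gam D n (l * A) * EE D A ^ l) := ⟨_, rfl⟩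
  have hgh : g.IsHomogeneous (3 * (p ^ e - 1)) := by
    rw [hg, ← hn]; exact g_homog _ n l A hA hlA
  obtain ⟨φ3, h4, h5⟩ := exists_phi3 p e w Ξ hΞl (hh n l (gam D n (l * A)) α β)
    (by rw [← hn]; exact hh_homog n l hln _ _ _)
  have h5' : ∀ x, res w (φ3 x) = Ξ (g * res w x) := fun x => by
    have h6 : coeff (nvec n) (FF w ^ n * hh n l (gam D n (l * A)) α β) = g := by
      have h7 := coeff_hh n l hln (C w : BB D) (xi D) (eta D) (gam D n (l * A)) α β
      rw [hαβ] at h7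
      rw [hg, map_mul, map_pow, map_natCast, ← mul_assoc]
      exact h7
    rw [h5, ← hn, h6]
  let θB : BB D →+ BB D := Ξ.comp (AddMonoidHom.mulLeft g)
  have hB : ∀ b, θB b = Ξ (g * b) := fun b => rfl
  obtain ⟨φ, hφ1, hφ2⟩ := assemble p e w s hs μ N θB φ3
    (fun r x => by rw [hB, hB, ← hΞl, mul_left_comm])
    (fun k b => by rw [hB, hB, hΞ, hc_tr _ hq θ hgh])
    (fun b => by
      have hm : IsUnit (∏ j, μ j ^ n) := IsUnit.prod_iff.2 fun j _ => (hu j).pow n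
      obtain ⟨m', hm'⟩ := hm.exists_left_inv
      have hz : (s ^ N) ^ p ^ e ∣ μ 2 - μ 1 ^ A := by
        rw [← pow_mul]; exact (pow_dvd_pow s hle).trans hP
      obtain ⟨R, hR⟩ := psi_g μ h0 _ n l A hlA hz
      have hC : (C m' : BB D) * C (∏ j, μ j ^ n) = 1 := by rw [← map_mul, hm', C_1]
      have e1 : psi μ (θB b) = Ξ (psi μ (C m' * (g * b))) := by
        rw [hB, hΞ, tr_psi _ hq θ hθl, ← hn, ← mul_assoc (C _) (C _), mul_comm (C _) (C m'), hC,
          one_mul]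
      have e2 : g * psi μ b - psi μ (C m' * (g * b)) = C (s ^ N) ^ p ^ e *
          (-(C m' * C ((n.choose l : D) * w ^ (n - l)) * R * psi μ b)) := by
        rw [hg, map_mul (psi μ), map_mul (psi μ), map_mul (psi μ), psi_C, psi_C, ← C_pow]
        linear_combination
          (-(C m' * C ((n.choose l : D) * w ^ (n - l)) * psi μ b)) * hR -
          (C ((n.choose l : D) * w ^ (n - l)) * (gam D n (l * A) * EE D A ^ l) * psi μ b) * hC
      rw [e1, hB, ← map_sub, e2, hΞl]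
      exact dvd_mul_right _ _)
    h4 (fun x => by rw [h5', hB])
  refine ⟨e, by omega, φ, hφ1, ?_⟩
  rw [dpart_def, hφ2, h5', hΞ, cc_tr _ hq θ hgh, ← dpart_def, ← hn, hg, coeff_C_mul,
    coeff_g n l A hlA, mul_one, mul_assoc, ← nsmul_eq_mul, map_nsmul, map_nsmul, nsmul_eq_mul, hn,
    choose_cast p e hp k l (by omega)]
  exact mul_ne_zero (pow_ne_zero _ (neg_ne_zero.2 one_ne_zero)) hθc

end Pool.Agent.MP_961ca8_al.H18
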