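import Pool.Agent.MP_961ca8_al.H18.Ring

/-!
Trace operators on polynomial rings.
-/

namespace Pool.Agent.MP_961ca8_al.H18

open MvPolynomial

section Mv

variable {Λ : Type} [CommRing Λ]

/-- the exponent `(n, n, n)` -/
noncomputable def nvec (n : ℕ) : Fin 3 →₀ ℕ := Finsupp.equivFunOnFinite.symm fun _ => n

@[simp] theorem nvec_apply (n : ℕ) (i : Fin 3) : nvec n i = n := rfl

theorem ix_inj (q : ℕ) (hq : 0 < q) :
    Function.Injective fun γ : Fin 3 →₀ ℕ => q • γ + nvec (q - 1) := by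
  intro a b h
  ext i
  have := DFunLike.congr_fun h i
  simp only [Finsupp.add_apply, Finsupp.smul_apply, smul_eq_mul, nvec_apply] at this
  exact Nat.eq_of_mul_eq_mul_left hq (by omega)

noncomputable def trFun (q : ℕ) (hq : 0 < q) (θ : Λ →+ Λ) (t : MvPolynomial (Fin 3) Λ) :
    MvPolynomial (Fin 3) Λ :=
  ∑ γ ∈ t.support.preimage (fun γ : Fin 3 →₀ ℕ => q • γ + nvec (q - 1)) (ix_inj q hq).injOn,
    monomial γ (θ (coeff (q • γ + nvec (q - 1)) t))

theorem coeff_trFun (q : ℕ) (hq : 0 < q) (θ : Λ →+ Λ) (t : MvPolynomial (Fin 3) Λ)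
    (γ : Fin 3 →₀ ℕ) : coeff γ (trFun q hq θ t) = θ (coeff (q • γ + nvec (q - 1)) t) := by
  rw [trFun, coeff_sum]
  simp only [coeff_monomial]
  rw [Finset.sum_ite_eq']
  split_ifs with h
  · rfl
  · rw [Finset.mem_preimage, notMem_support_iff] at h
    rw [h, map_zero]

/-- the trace operator with base operator `θ` -/
noncomputable def tr (q : ℕ) (hq : 0 < q) (θ : Λ →+ Λ) :
    MvPolynomial (Fin 3) Λ →+ MvPolynomial (Fin 3) Λ where
  toFun := trFun q hq θ
  map_zero' := by ext γ; simp [coeff_trFun]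
  map_add' a b := by ext γ; simp [coeff_trFun]

theorem coeff_tr (q : ℕ) (hq : 0 < q) (θ : Λ →+ Λ) (t : MvPolynomial (Fin 3) Λ)
    (γ : Fin 3 →₀ ℕ) : coeff γ (tr q hq θ t) = θ (coeff (q • γ + nvec (q - 1)) t) :=
  coeff_trFun q hq θ t γ

theorem tr_X (q : ℕ) (hq : 0 < q) (θ : Λ →+ Λ) (i : Fin 3) (t : MvPolynomial (Fin 3) Λ) :
    tr q hq θ (X i ^ q * t) = X i * tr q hq θ t := by
  ext γ
  rw [coeff_tr, X_pow_eq_monomial, coeff_monomial_mul', coeff_X_mul', coeff_tr]
  by_cases h : γ i = 0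
  · rw [if_neg, if_neg (by simpa using h), map_zero]
    rw [Finsupp.single_le_iff]
    simp only [Finsupp.add_apply, Finsupp.smul_apply, smul_eq_mul, nvec_apply, h]
    omega
  · rw [if_pos, if_pos (by simpa using h), one_mul]
    · congr 2
      ext j
      simp only [Finsupp.add_apply, Finsupp.smul_apply, smul_eq_mul, nvec_apply,
        Finsupp.tsub_apply, Finsupp.single_apply]
      split_ifs with hj
      · subst hj
        obtain ⟨k, hk⟩ := Nat.exists_eq_succ_of_ne_zero h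
        rw [hk, Nat.succ_sub_one, Nat.mul_succ]
        omega
      · simp
    · rw [Finsupp.single_le_iff]
      simp only [Finsupp.add_apply, Finsupp.smul_apply, smul_eq_mul, nvec_apply]
      have : q * 1 ≤ q * γ i := Nat.mul_le_mul_left _ (Nat.one_le_iff_ne_zero.2 h)
      omega

theorem tr_lin (p e : ℕ) [Fact p.Prime] [CharP Λ p] (hq : 0 < p ^ e) (θ : Λ →+ Λ)
    (hθ : ∀ r x, θ (r ^ p ^ e * x) = r * θ x) (r t : MvPolynomial (Fin 3) Λ) :
    tr (p ^ e) hq θ (r ^ p ^ e * t) = r * tr (p ^ e) hq θ t := by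
  induction r using MvPolynomial.induction_on generalizing t with
  | C a =>
    ext γ
    rw [coeff_tr, ← C_pow, coeff_C_mul, hθ, coeff_C_mul, coeff_tr]
  | add a b ha hb => rw [add_pow_char_pow, add_mul, map_add, ha, hb, add_mul]
  | mul_X a i ha => rw [mul_pow, mul_assoc, ha, tr_X, mul_assoc]

theorem degree_ix (q : ℕ) (γ : Fin 3 →₀ ℕ) :
    (q • γ + nvec (q - 1)).degree = q * γ.degree + 3 * (q - 1) := by
  simp only [Finsupp.degree_eq_sum, Fin.sum_univ_three, Finsupp.add_apply, Finsupp.smul_apply,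
    smul_eq_mul, nvec_apply]
  ring

theorem hc_mul {g : MvPolynomial (Fin 3) Λ} {d : ℕ} (hg : g.IsHomogeneous d)
    (b : MvPolynomial (Fin 3) Λ) (m : ℕ) :
    homogeneousComponent (m + d) (g * b) = g * homogeneousComponent m b := by
  rw [← coeff_scale, map_mul, scale_homog hg, Polynomial.coeff_monomial_mul, coeff_scale]

theorem hc_tr (q : ℕ) (hq : 0 < q) (θ : Λ →+ Λ) {g : MvPolynomial (Fin 3) Λ}
    (hg : g.IsHomogeneous (3 * (q - 1))) (b : MvPolynomial (Fin 3) Λ) (k : ℕ) :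
    homogeneousComponent k (tr q hq θ (g * b)) =
      tr q hq θ (g * homogeneousComponent (q * k) b) := by
  ext γ
  rw [coeff_homogeneousComponent, coeff_tr, coeff_tr, ← hc_mul hg, coeff_homogeneousComponent,
    degree_ix]
  by_cases h : γ.degree = k
  · rw [if_pos h, if_pos (by rw [h])]
  · rw [if_neg h, if_neg, map_zero]
    intro h'
    exact h (Nat.eq_of_mul_eq_mul_left hq (by omega))

theorem cc_tr (q : ℕ) (hq : 0 < q) (θ : Λ →+ Λ) {g : MvPolynomial (Fin 3) Λ}
    (hg : g.IsHomogeneous (3 * (q - 1))) (b : MvPolynomial (Fin 3) Λ) :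
    constantCoeff (tr q hq θ (g * b)) = θ (coeff (nvec (q - 1)) g * constantCoeff b) := by
  have h := congrArg (coeff 0) (hc_tr q hq θ hg b 0)
  rw [homogeneousComponent_zero, mul_zero, homogeneousComponent_zero, coeff_zero_C] at h
  rw [constantCoeff_eq, h, coeff_tr, smul_zero, zero_add, mul_comm g (C _), coeff_C_mul, mul_comm]

theorem tr_psi (q : ℕ) (hq : 0 < q) (θ : Λ →+ Λ) (hθ : ∀ r x, θ (r ^ q * x) = r * θ x)
    (μ : Fin 3 → Λ) (y : MvPolynomial (Fin 3) Λ) :
    tr q hq θ (psi μ y) = psi μ (tr q hq θ (C (∏ j, μ j ^ (q - 1)) * y)) := by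
  ext γ
  rw [coeff_tr, coeff_psi, coeff_psi, coeff_tr, coeff_C_mul, ← hθ]
  congr 1
  simp only [Finsupp.add_apply, Finsupp.smul_apply, smul_eq_mul, nvec_apply, Fin.prod_univ_three]
  ring

end Mv

section One

variable {Λ : Type} [CommRing Λ]

noncomputable def ltFun (q : ℕ) (θ : Λ →+ Λ) (t : Polynomial Λ) : Polynomial Λ :=
  ∑ k ∈ Finset.range (t.natDegree + 1), Polynomial.monomial k (θ (t.coeff (q * k)))

theorem coeff_ltFun (q : ℕ) (hq : 0 < q) (θ : Λ →+ Λ) (t : Polynomial Λ) (k : ℕ) :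
    (ltFun q θ t).coeff k = θ (t.coeff (q * k)) := by
  rw [ltFun, Polynomial.finsetSum_coeff]
  simp only [Polynomial.coeff_monomial]
  rw [Finset.sum_ite_eq']
  split_ifs with h
  · rfl
  · rw [Finset.mem_range] at h
    rw [Polynomial.coeff_eq_zero_of_natDegree_lt, map_zero]
    have : 1 * k ≤ q * k := Nat.mul_le_mul_right _ hq
    omega

/-- the logarithmic trace operator with base operator `θ` -/
noncomputable def lt1 (q : ℕ) (hq : 0 < q) (θ : Λ →+ Λ) : Polynomial Λ →+ Polynomial Λ where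
  toFun := ltFun q θ
  map_zero' := by ext k; simp [coeff_ltFun q hq]
  map_add' a b := by ext k; simp [coeff_ltFun q hq]

theorem coeff_lt1 (q : ℕ) (hq : 0 < q) (θ : Λ →+ Λ) (t : Polynomial Λ) (k : ℕ) :
    (lt1 q hq θ t).coeff k = θ (t.coeff (q * k)) := coeff_ltFun q hq θ t k

theorem lt1_X (q : ℕ) (hq : 0 < q) (θ : Λ →+ Λ) (t : Polynomial Λ) :
    lt1 q hq θ (Polynomial.X ^ q * t) = Polynomial.X * lt1 q hq θ t := by
  ext k
  rw [coeff_lt1, Polynomial.coeff_X_pow_mul']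
  cases k with
  | zero => rw [if_neg (by omega), map_zero, Polynomial.coeff_X_mul_zero]
  | succ k =>
    rw [if_pos (by rw [Nat.mul_succ]; omega), Polynomial.coeff_X_mul, coeff_lt1, Nat.mul_succ,
      Nat.add_sub_cancel]

theorem lt1_lin (p e : ℕ) [Fact p.Prime] [CharP Λ p] (hq : 0 < p ^ e) (θ : Λ →+ Λ)
    (hθ : ∀ r x, θ (r ^ p ^ e * x) = r * θ x) (r t : Polynomial Λ) :
    lt1 (p ^ e) hq θ (r ^ p ^ e * t) = r * lt1 (p ^ e) hq θ t := by
  induction r using Polynomial.induction_on generalizing t with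
  | C a =>
    ext k
    rw [coeff_lt1, ← Polynomial.C_pow, Polynomial.coeff_C_mul, hθ, Polynomial.coeff_C_mul,
      coeff_lt1]
  | add a b ha hb => rw [add_pow_char_pow, add_mul, map_add, ha, hb, add_mul]
  | monomial n a ha =>
    rw [pow_succ, ← mul_assoc, mul_pow, mul_assoc, ha, lt1_X, ← mul_assoc]

end One

end Pool.Agent.MP_961ca8_al.H18
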